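import Mathlib
import Pool.Agent.Lib.MP_881e12_lc.Main

set_option autoImplicit false

namespace Pool.Agent.Results.MP_881e12_lc.Deterministic

open MP881e12 MP60f107

/-- Full answer (yes) to Q1.  There is a deterministic polynomial-time algorithm (a function on strings
computed by a Turing machine in polynomial time) that, given the adjacency matrix of any graph `G` on
`n` vertices, outputs a drawing of `G`, with polygonal edges, that has at most `cr(G) + ε(n)` crossings,
where `ε(n) / n ^ 4 → 0`. -/
theorem result : ∃ (f : List Bool → List Bool) (ε : ℕ → ℝ), N68a2faeb.IsPolyTime f ∧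
    Filter.Tendsto (fun n => ε n / (n : ℝ) ^ 4) Filter.atTop (nhds 0) ∧
    ∀ (n : ℕ) (G : SimpleGraph (Fin n)) [DecidableRel G.Adj], ∃ (o : Output) (D : TopDrawing G),
      f (matrixBits G) = N487b59b3.bitEncode o ∧ IsDrawingOf o D ∧
      (D.crossings : ℝ) ≤ topCrossingNumber G + ε n :=
  main_top

end Pool.Agent.Results.MP_881e12_lc.Deterministic
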